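import Pool.Agent.H.MP_5eed22_lc.A

set_option autoImplicit false

namespace Pool.Agent.Results.MP_5eed22_lc.Yes

open Filter Cardinal Pool.Agent.H.MP_5eed22_lc

theorem result
    (hd : IsLeast {κ | ∃ D : Set (ℕ → ℕ), (∀ f : ℕ → ℕ, ∃ g ∈ D, ∀ᶠ m in atTop, f m ≤ g m) ∧ #D = κ}
      (aleph 1))
    (hu : IsLeast {κ | ∃ (U : Ultrafilter ℕ) (B : Set (Set ℕ)), (U : Filter ℕ) ≤ cofinite ∧
      (∀ X ∈ B, X ∈ U) ∧ (∀ X ∈ U, ∃ Y ∈ B, (Y \ X).Finite) ∧ #B = κ} (aleph 1)) :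
    IsLeast {κ | ∃ F : Set (Set ℕ), Maximal Ind F ∧ F.Infinite ∧ #F = κ} (aleph 1) :=
  let ⟨D, a, b⟩ := hd.1
  let ⟨U, B, c, d, e, f⟩ := hu.1
  main D a b U c B d e f

end Pool.Agent.Results.MP_5eed22_lc.Yes
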